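import Pool.Agent.MP_c69980_ag.H43.Spec1

/-!
Logarithmic derivations stay logarithmic on algebraic extensions.
-/

set_option autoImplicit false

namespace Pool.Agent.MP_c69980_ag.H43

open Polynomial Finset
open scoped IntermediateField

section
variable {K Γ : Type} [Field K] [LinearOrderedCommGroupWithZero Γ] (v : Valuation K Γ)

lemma tame_prod (y c : K) (s : Multiset K) (h : ∀ b ∈ s, v y ≤ v (y - b)) (i : ℕ) :
    v ((C c * (s.map (X - C ·)).prod).coeff i * y ^ i) ≤
      v ((C c * (s.map (X - C ·)).prod).eval y) := by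
  induction s using Multiset.induction_on generalizing i with
  | empty =>
    cases i with
    | zero => simp
    | succ i => simp
  | cons b s ih =>
    have h1 := h b (Multiset.mem_cons_self _ _)
    have h2 : v b ≤ v (y - b) := by
      have := v.map_sub y (y - b)
      rwa [sub_sub_cancel, max_eq_right h1] at this
    have ih' := ih fun b hb => h b (Multiset.mem_cons_of_mem hb)
    rw [Multiset.map_cons, Multiset.prod_cons, mul_left_comm]
    generalize C c * (s.map (X - C ·)).prod = T at ih' ⊢
    rw [eval_mul, eval_sub, eval_X, eval_C, v.map_mul (y - b), sub_mul, coeff_sub, coeff_C_mul]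
    have h3 : ∀ j, v (b * T.coeff j * y ^ j) ≤ v (y - b) * v (T.eval y) := fun j => by
      rw [mul_assoc, v.map_mul b]
      exact mul_le_mul' h2 (ih' j)
    rw [sub_mul]
    refine v.map_sub_le ?_ (h3 i)
    cases i with
    | zero => simp
    | succ i =>
      rw [coeff_X_mul, pow_succ', mul_left_comm, v.map_mul y]
      exact mul_le_mul' h1 (ih' i)

/-- The main estimate. -/
lemma tame_core [Algebra ℂ K] [IsAlgClosed K] (E : Derivation ℂ K K)
    (hn : ∀ n : ℕ, v ((n : K) + 1) = 1) (Q : K[X]) (hQ : ∀ i, v (E (Q.coeff i)) ≤ v (Q.coeff i))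
    (y : K) (h0 : Q.eval y = 0) (h1 : Q.derivative.eval y ≠ 0)
    (h2 : ∀ b ∈ Q.derivative.roots, v y ≤ v (y - b)) : v (E y) ≤ v y := by
  have a1 : ∀ i, v (Q.coeff (i + 1) * y ^ (i + 1)) ≤ v (Q.derivative.eval y * y) := fun i => by
    have := tame_prod v y Q.derivative.leadingCoeff _ h2 i
    rw [← (IsAlgClosed.splits Q.derivative).eq_prod_roots, coeff_derivative, mul_right_comm,
      v.map_mul, hn, mul_one] at this
    rw [pow_succ, ← mul_assoc, v.map_mul, v.map_mul _ y]
    exact mul_le_mul' this le_rfl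
  have a2 : ∀ i, v (Q.coeff i * y ^ i) ≤ v (Q.derivative.eval y * y) := fun i => by
    cases i with
    | succ i => exact a1 i
    | zero =>
      rw [eval_eq_sum_range, sum_range_succ', add_eq_zero_iff_eq_neg'] at h0
      rw [h0, v.map_neg]
      exact v.map_sum_le fun i _ => a1 i
  have a3 : Q.derivative.eval y * E y = -∑ i ∈ range (Q.natDegree + 1), E (Q.coeff i) * y ^ i := by
    have := congrArg E h0
    rw [eval_eq_sum_range, map_sum, map_zero] at this
    rw [derivative_eval, sum_over_range _ (by simp), eq_neg_iff_add_eq_zero, sum_mul,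
      ← sum_add_distrib, ← this]
    refine sum_congr rfl fun i _ => ?_
    simp only [E.leibniz, E.leibniz_pow, smul_eq_mul, nsmul_eq_mul]
    ring
  have a4 : v (Q.derivative.eval y * E y) ≤ v (Q.derivative.eval y * y) := by
    rw [a3, v.map_neg]
    refine v.map_sum_le fun i _ => le_trans ?_ (a2 i)
    rw [v.map_mul, v.map_mul]
    exact mul_le_mul' (hQ i) le_rfl
  rw [v.map_mul, v.map_mul] at a4
  exact le_of_mul_le_mul_left a4 (zero_lt_iff.2 (v.ne_zero_iff.2 h1))

lemma tame_ind [Algebra ℂ K] [IsAlgClosed K] (E : Derivation ℂ K K)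
    (hn : ∀ n : ℕ, v ((n : K) + 1) = 1) (d : ℕ) : ∀ F : Subfield K, (∀ x ∈ F, v (E x) ≤ v x) →
    ∀ (P : F[X]) (x : K), P ≠ 0 → P.natDegree ≤ d → aeval x P = 0 → v (E x) ≤ v x := by
  classical
  have : CharZero K := charZero_of_injective_algebraMap (algebraMap ℂ K).injective
  induction d using Nat.strong_induction_on with
  | _ d ih =>
  intro F hF P x h0 hd hx
  have h1 : P.natDegree ≠ 0 := fun h => by
    rw [eq_C_of_natDegree_eq_zero h, aeval_C, map_eq_zero] at hx
    exact h0 (by rw [eq_C_of_natDegree_eq_zero h, hx, C_0])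
  have h2 : derivative P ≠ 0 := fun h => h1 (derivative_eq_zero.1 h)
  have h3 := (natDegree_derivative_lt h1).trans_le hd
  by_cases h4 : aeval x (derivative P) = 0
  · exact ih _ h3 F hF _ x h2 le_rfl h4
  obtain ⟨a, ha, hmin⟩ := exists_min_image
    (insert 0 ((derivative P).aroots K).toFinset) (fun a => v (x - a)) (insert_nonempty _ _)
  obtain ⟨G, g1, g2, g3⟩ : ∃ G : Subfield K, F ≤ G ∧ a ∈ G ∧ ∀ z ∈ G, v (E z) ≤ v z := by
    rcases mem_insert.1 ha with rfl | ha
    · exact ⟨F, le_rfl, F.zero_mem, hF⟩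
    have b1 := (mem_aroots.1 (Multiset.mem_toFinset.1 ha)).2
    have b2 : IsIntegral F a := IsAlgebraic.isIntegral ⟨_, h2, b1⟩
    have := IntermediateField.adjoin.finiteDimensional b2
    refine ⟨F⟮a⟯.toSubfield, fun z hz => F⟮a⟯.algebraMap_mem ⟨z, hz⟩,
      IntermediateField.mem_adjoin_simple_self F a, fun z hz => ?_⟩
    have b3 := minpoly.natDegree_le (A := F) (⟨z, hz⟩ : F⟮a⟯)
    rw [IntermediateField.adjoin.finrank b2] at b3
    refine ih _ h3 F hF (minpoly F (⟨z, hz⟩ : F⟮a⟯)) z
      (minpoly.ne_zero (Algebra.IsIntegral.isIntegral _))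
      (b3.trans (natDegree_le_natDegree (minpoly.degree_le_of_ne_zero F a h2 b1))) ?_
    exact (aeval_algebraMap_apply K (⟨z, hz⟩ : F⟮a⟯) _).trans (by rw [minpoly.aeval, map_zero])
  have e : derivative (taylor a (P.map (algebraMap F K))) =
      taylor a ((derivative P).map (algebraMap F K)) := by
    simp [taylor_apply, derivative_comp]
  have c1 : v (E (x - a)) ≤ v (x - a) := by
    refine tame_core v E hn (taylor a (P.map (algebraMap F K))) (fun i => g3 _ ?_) _ ?_ ?_ ?_
    · have : taylor a (P.map (algebraMap F K)) =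
          (taylor ⟨a, g2⟩ (P.map (Subfield.inclusion g1))).map G.subtype := by
        rw [map_taylor, Polynomial.map_map]
        rfl
      rw [this, coeff_map]
      exact Subtype.property _
    · rw [taylor_eval_sub, eval_map_algebraMap, hx]
    · rwa [e, taylor_eval_sub, eval_map_algebraMap]
    · intro b hb
      have b1 := (mem_roots'.1 hb).2
      rw [e, IsRoot, taylor_eval, eval_map_algebraMap] at b1
      have b2 := hmin (b + a)
        (mem_insert_of_mem (Multiset.mem_toFinset.2 (mem_aroots.2 ⟨h2, b1⟩)))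
      rwa [add_comm b a, ← sub_sub] at b2
  have c2 : v (x - a) ≤ v x := by simpa using hmin 0 (mem_insert_self _ _)
  have c3 : v a ≤ v x := by
    have := v.map_sub_le (le_refl (v x)) c2
    rwa [sub_sub_cancel] at this
  have c4 := v.map_add_le (c1.trans c2) ((g3 a g2).trans c3)
  rwa [← map_add, sub_add_cancel] at c4

end

theorem sTame : STame := by
  intro K _ _ _ V E F hC hF x hx
  have key : ∀ z : K, E z / z ∈ V ↔ V.valuation (E z) ≤ V.valuation z := fun z => by
    rcases eq_or_ne z 0 with rfl | hz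
    · simp
    · rw [← V.valuation_le_one_iff, map_div₀,
        div_le_one₀ (zero_lt_iff.2 (V.valuation.ne_zero_iff.2 hz))]
  obtain ⟨P, h0, h1⟩ := hx
  refine (key x).2 (tame_ind V.valuation E (fun n => ?_) _ F (fun z hz => (key z).1 (hF z hz))
    P x h0 le_rfl h1)
  simpa using H60.val_c V hC (Nat.cast_add_one_ne_zero n)

end Pool.Agent.MP_c69980_ag.H43
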