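import Pool.Agent.MP_c69980_ag.H43.Spec6

/-!
A smooth affine curve that contains a given place and avoids finitely many others.
-/

set_option autoImplicit false

namespace Pool.Agent.MP_c69980_ag.H43

open MvPolynomial H60 Finset Filter Topology Metric Pool.Agent.MP_f3836a_nt.PK

variable {L : Type} [Field L] [Algebra ℂ L]

lemma cv2_aeval (h : FFd L) (P : Pl L) {ι : Type} {s : ι → L} (hs : ∀ i, s i ∈ P.V)
    (F : MvPolynomial ι ℂ) :
    aeval s F ∈ P.V ∧ P.val (aeval s F) = eval (fun i => P.val (s i)) F := by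
  obtain ⟨χ, h1, h2⟩ := h.a.hom P
  induction F using MvPolynomial.induction_on with
  | C c => simpa using ⟨P.const c, h2 c⟩
  | add p q hp hq =>
    rw [map_add, map_add, ← hp.2, ← hq.2]
    refine ⟨add_mem hp.1 hq.1, ?_⟩
    rw [← h1 ⟨_, hp.1⟩, ← h1 ⟨_, hq.1⟩, ← χ.map_add, h1]; rfl
  | mul_X p i hp =>
    rw [map_mul, map_mul, ← hp.2, aeval_X, eval_X]
    refine ⟨mul_mem hp.1 (hs i), ?_⟩
    rw [← h1 ⟨_, hp.1⟩, ← h1 ⟨_, hs i⟩, ← map_mul, h1]; rfl

lemma cv2_val0 (h : FFd L) (P : Pl L) : P.val (0 : L) = 0 := by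
  simpa using (h.a.hom P).choose_spec.2 0

lemma cv2_inv (h : FFd L) (P : Pl L) {u : L} (hu : u ∈ P.V) (h0 : P.val u ≠ 0) :
    u ≠ 0 ∧ u⁻¹ ∈ P.V := by
  have := (h.a.val P u hu 0).not.2 h0
  rw [map_zero, sub_zero, h.a.zero, ValuationSubring.mem_nonunits_iff_or, not_or, not_not] at this
  exact this

lemma cv2_le (h : FFd L) {P Q : Pl L} (H : ∀ x ∈ P.V, x ∈ Q.V) : P = Q := by
  have := h.a.dvr P
  exact Place.ext (ValuationSubring.eq_of_le_of_ne_top _ H Q.ne)

lemma cv2_ring (h : FFd L) (P : Pl L) : Algebra.trdeg ℂ L = 1 ∧ ∃ (t : L) (T : Finset L),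
    Transcendental ℂ t ∧ t ∈ T ∧ (∀ x ∈ T, x ∈ P.V) ∧ ∀ O : Subalgebra ℂ L, (∀ x ∈ T, x ∈ O) →
      ∀ p : Ideal O, p.IsPrime → ∀ u : L, ∃ a b : O, b ∉ p ∧
        (u = a * (b : L)⁻¹ ∨ u⁻¹ = a * (b : L)⁻¹) := by
  classical
  obtain ⟨t, t0, ht⟩ := h.a.uni P
  have hT : Transcendental ℂ t := by
    rcases PlB.const_or (k := ℂ) t with ⟨a, rfl⟩ | h'
    · rw [h.a.con] at ht; omega
    · exact h'
  have htV : t ∈ P.V := (h.a.mem P t t0).2 (by omega)
  let K := IntermediateField.adjoin ℂ {t}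
  have hfd : FiniteDimensional K L := h.b.fd t hT
  have : CharZero K := charZero_of_injective_algebraMap (algebraMap ℂ _).injective
  let _ : Algebra (Polynomial ℂ) L :=
    (Polynomial.aeval t : Polynomial ℂ →ₐ[ℂ] L).toRingHom.toAlgebra
  let _ : Algebra (Polynomial ℂ) K := (Polynomial.aeval (IntermediateField.AdjoinSimple.gen ℂ t) :
    Polynomial ℂ →ₐ[ℂ] K).toRingHom.toAlgebra
  have hF : ∀ q : Polynomial ℂ, algebraMap (Polynomial ℂ) L q = Polynomial.aeval t q :=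
    fun _ => rfl
  have _ : IsScalarTower (Polynomial ℂ) K L := .of_algebraMap_eq fun q =>
    (Polynomial.aeval_algebraMap_apply L (IntermediateField.AdjoinSimple.gen ℂ t) q)
  have _ : IsScalarTower ℂ (Polynomial ℂ) L :=
    .of_algebraMap_eq fun a => (Polynomial.aeval_C t a).symm
  have hinj : Function.Injective (algebraMap (Polynomial ℂ) L) := transcendental_iff_injective.1 hT
  have _ : FaithfulSMul (Polynomial ℂ) L := (faithfulSMul_iff_algebraMap_injective _ _).2 hinj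
  have _ : FaithfulSMul (Polynomial ℂ) K := (faithfulSMul_iff_algebraMap_injective _ _).2
    (Function.Injective.of_comp (f := algebraMap K L) (by
      rwa [IsScalarTower.algebraMap_eq (Polynomial ℂ) K L] at hinj))
  have _ : IsFractionRing (Polynomial ℂ) K := IsFractionRing.of_field _ _ fun z => by
    obtain ⟨r, s, h⟩ := (IntermediateField.mem_adjoin_simple_iff ℂ z.1).1 z.2
    refine ⟨r, s, (algebraMap K L).injective ?_⟩
    rw [map_div₀, ← IsScalarTower.algebraMap_apply, ← IsScalarTower.algebraMap_apply]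
    exact h
  let S := integralClosure (Polynomial ℂ) L
  have _ : IsDedekindDomain S := integralClosure.isDedekindDomain (Polynomial ℂ) K L
  have _ : IsFractionRing S L := integralClosure.isFractionRing_of_finite_extension K L
  have hfin : Module.Finite (Polynomial ℂ) S := IsIntegralClosure.finite (Polynomial ℂ) K L S
  have hq : ∀ (R : Subring L), (∀ c, algebraMap ℂ L c ∈ R) → t ∈ R →
      ∀ q : Polynomial ℂ, algebraMap (Polynomial ℂ) L q ∈ R := fun R h1 h2 q => by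
    rw [hF, Polynomial.aeval_eq_sum_range]
    refine sum_mem fun i _ => ?_
    rw [Algebra.smul_def]
    exact mul_mem (h1 _) (pow_mem h2 i)
  refine ⟨?_, ?_⟩
  · have h1 : Algebra.IsAlgebraic (Polynomial ℂ) L :=
      (IsFractionRing.comap_isAlgebraic_iff (A := Polynomial ℂ) (K := K) (C := L)).2 inferInstance
    rw [← trdeg_add_eq ℂ (Polynomial ℂ), Polynomial.trdeg_of_isDomain, trdeg_eq_zero, add_zero]
  obtain ⟨B, hB⟩ := hfin.fg_top
  refine ⟨t, insert t (B.image Subtype.val), hT, mem_insert_self _ _, fun x hx => ?_,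
    fun O hO p hp u => ?_⟩
  · rcases mem_insert.1 hx with rfl | hx
    · exact htV
    obtain ⟨s, -, rfl⟩ := mem_image.1 hx
    let _ : Algebra (Polynomial ℂ) P.V := ((algebraMap (Polynomial ℂ) L).codRestrict
      P.V.toSubring (hq _ P.const htV)).toAlgebra
    have _ : IsScalarTower (Polynomial ℂ) P.V L := .of_algebraMap_eq fun _ => rfl
    obtain ⟨y, hy⟩ := IsIntegrallyClosed.isIntegral_iff.1
      (IsIntegral.tower_top (A := P.V) (x := (s : L)) s.2)
    exact hy ▸ y.2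
  have hS : ∀ s : S, algebraMap S L s ∈ O := fun s => by
    have hs : s ∈ Submodule.span (Polynomial ℂ) (B : Set S) := hB ▸ Submodule.mem_top
    induction hs using Submodule.span_induction with
    | mem x hx => exact hO _ (mem_insert_of_mem (mem_image_of_mem _ hx))
    | zero => simp
    | add x y _ _ hx hy => rw [map_add]; exact add_mem hx hy
    | smul q x _ hx =>
      rw [Algebra.smul_def, map_mul, ← IsScalarTower.algebraMap_apply]
      exact mul_mem (hq O.toSubring O.algebraMap_mem (hO _ (mem_insert_self _ _)) q) hx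
  let φ : S →+* O := (algebraMap S L).codRestrict O.toSubring hS
  by_cases e : p.comap φ = ⊥
  · obtain ⟨a, b, hb, rfl⟩ := IsFractionRing.div_surjective (A := S) u
    refine ⟨φ a, φ b, fun hp' => nonZeroDivisors.ne_zero hb ?_, Or.inl (div_eq_mul_inv _ _)⟩
    rw [← Ideal.mem_bot, ← e]; exact hp'
  · let v : IsDedekindDomain.HeightOneSpectrum S := ⟨p.comap φ, inferInstance, e⟩
    rcases (v.valuationSubringAtPrime L).mem_or_inv_mem u with ⟨a, b, hb, h'⟩ | ⟨a, b, hb, h'⟩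
    · exact ⟨φ a, φ b, hb, Or.inl h'⟩
    · exact ⟨φ a, φ b, hb, Or.inr h'⟩

theorem sCv2 : SCv2 := by
  classical
  intro L _ _ h S P₀ hP₀
  obtain ⟨hd, t, T, ht, htT, hTV, hT⟩ := cv2_ring h P₀
  have hx : ∀ P ∈ S, ∃ x ∈ P₀.V, x ∉ P.V := fun P hP => by
    by_contra hn
    push Not at hn
    exact hP₀ (cv2_le h hn ▸ hP)
  choose! x hx1 hx2 using hx
  let T' := T ∪ S.image x
  let s : Fin (T'.card + 1) → L := Fin.cons 1 fun i => (T'.equivFin.symm i : L)
  have s0 : s 0 = 1 := rfl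
  have hs : ∀ y ∈ T', ∃ i, s i = y := fun y hy => ⟨(T'.equivFin ⟨y, hy⟩).succ, by simp [s]⟩
  have hsV : ∀ i, s i ∈ P₀.V := fun i => by
    refine Fin.cases (one_mem _) (fun i => ?_) i
    rcases mem_union.1 (T'.equivFin.symm i).2 with h' | h'
    · exact hTV _ h'
    · obtain ⟨P, hP, e⟩ := mem_image.1 h'
      exact (show s i.succ = x P from e.symm) ▸ hx1 P hP
  let C : Set (PS (T'.card + 1)) := {c | On s c.rep ∧ c.rep 0 ≠ 0}
  have hl : ∀ c ∈ C, ∀ y ∈ T', y ∈ locRing s c := fun c hc y hy => by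
    obtain ⟨i, rfl⟩ := hs y hy
    exact Algebra.subset_adjoin ⟨X i, X 0, 1, isHomogeneous_X _ _, isHomogeneous_X _ _,
      by simpa using hc.2, by simp [s0]⟩
  have hpl : ∀ c ∈ C, ∃ Q : Pl L, ∀ u, u ∈ Q.V ↔ u ∈ locRing s c := fun c hc => by
    have e : locRing s c = rg hc.1 := SetLike.ext fun u => mem_locRing hc.1 u
    have hu : ∀ u : rg hc.1, chi hc.1 u ≠ 0 → (u : L)⁻¹ ∈ rg hc.1 := by
      rintro ⟨u, F, G, d, hF, hG, h0, rfl⟩ h1
      exact ⟨G, F, d, hG, hF, fun q => h1 ((vl_eq hc.1 hF hG h0).trans (by rw [q, zero_div])),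
        inv_div _ _⟩
    have hO : ∀ y ∈ T, y ∈ rg hc.1 := fun y hy => e ▸ hl c hc y (mem_union_left _ hy)
    refine ⟨⟨.ofSubring (rg hc.1).toSubring fun u => ?_, fun q => ?_,
      (rg hc.1).algebraMap_mem⟩, fun u => by rw [e]; rfl⟩
    · obtain ⟨a, b, hb, h'⟩ := hT _ hO (RingHom.ker (chi hc.1)) (RingHom.ker_isPrime _) u
      have m := mul_mem a.2 (hu b hb)
      exact h'.imp (fun q => by rw [q]; exact m) fun q => by rw [q]; exact m
    · have q' : ∀ u : L, u ∈ rg hc.1 := fun u => by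
        have : u ∈ (⊤ : ValuationSubring L) := trivial
        rw [← q] at this; exact this
      let a := chi hc.1 ⟨t, q' t⟩
      have n : t - algebraMap ℂ L a ≠ 0 := fun z =>
        ht (sub_eq_zero.1 z ▸ isAlgebraic_algebraMap a)
      have e1 : (⟨t, q' t⟩ - algebraMap ℂ _ a : rg hc.1) * ⟨_, q' (t - algebraMap ℂ L a)⁻¹⟩ = 1 :=
        Subtype.ext (mul_inv_cancel₀ n)
      have := congrArg (chi hc.1) e1
      simp [a] at this
  have gen1 : ∀ (F : PR (T'.card + 1)) (d : ℕ), F.IsHomogeneous d →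
      (aeval s F = 0 ↔ ∀ c ∈ C, eval c.rep F = 0) := fun F d hF => by
    refine ⟨fun q c hc => hc.1 F d hF q, fun q => by_contra fun n => ?_⟩
    have := RingHom.ker_isPrime (aeval s : PR _ →ₐ[ℂ] L)
    obtain ⟨c, c1, c2⟩ := point_of_prime (RingHom.ker (aeval s : PR _ →ₐ[ℂ] L)) (i0 := 0)
      (by simp [s0]) (hF.mul (isHomogeneous_X ℂ 0)) (by simpa [s0] using n)
    rw [map_mul, eval_X] at c1
    exact left_ne_zero_of_mul c1 (q c ⟨c2, right_ne_zero_of_mul c1⟩)
  let y : Fin (T'.card + 1) → ℂ := fun i => P₀.val (s i)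
  have y0 : y 0 = 1 := by simpa [y, s0] using (h.a.hom P₀).choose_spec.2 1
  have yn : y ≠ 0 := fun q => by simp [q] at y0
  have hc₀ : Projectivization.mk ℂ y yn ∈ C := by
    refine ⟨fun G d hG q => ?_, ?_⟩
    · rw [eval_mk hG, ← (cv2_aeval h P₀ hsV G).2, q, cv2_val0 h]
    · have := (eval_mk (isHomogeneous_X ℂ 0) yn).not.2 (by simp [y0])
      simpa using this
  refine ⟨_, C, s, ⟨⟨⟨⟨_, hc₀⟩, ?_⟩, {c | On s c.rep}, {c | c.rep 0 = 0},
    ⟨{F | (∃ d, F.IsHomogeneous d) ∧ aeval s F = 0}, fun F hF => hF.1, ?_⟩,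
    ⟨{X 0}, ?_, by ext; simp⟩, rfl⟩, ⟨gen1, ?_⟩, hd, fun c hc => ?_⟩, ⟨_, hc₀, ?_⟩,
    fun P hP c hc q => hx2 P hP ((q _).2 (hl c hc _ (mem_union_right _ (mem_image_of_mem _ hP))))⟩
  · rintro Z Z' ⟨A, hA, rfl⟩ ⟨A', hA', rfl⟩ hsub
    by_contra hcon
    simp only [not_or, Set.not_subset, Set.mem_ofPred_eq, not_forall] at hcon
    obtain ⟨⟨P, hP, F, hF, hPF⟩, P', hP', F', hF', hPF'⟩ := hcon
    obtain ⟨d, hd⟩ := hA F hF
    obtain ⟨d', hd'⟩ := hA' F' hF'
    have h1 : aeval s (F * F') = 0 := by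
      refine (gen1 _ _ (hd.mul hd')).mpr fun Q hQ => ?_
      rw [map_mul]
      rcases hsub hQ with h | h
      · rw [h F hF, zero_mul]
      · rw [h F' hF', mul_zero]
    rw [map_mul] at h1
    rcases mul_eq_zero.mp h1 with h | h
    · exact hPF ((gen1 _ _ hd).mp h P hP)
    · exact hPF' ((gen1 _ _ hd').mp h P' hP')
  · ext c
    exact ⟨fun q F ⟨⟨d, hF⟩, e⟩ => q F d hF e, fun q F d hF e => q F ⟨⟨d, hF⟩, e⟩⟩
  · rintro F rfl
    exact ⟨1, isHomogeneous_X _ _⟩
  · refine eq_top_iff.2 fun u _ => ?_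
    set K := IntermediateField.adjoin ℂ {u | ∃ i j, u = s i / s j}
    obtain ⟨a, b, -, h'⟩ := hT K.toSubalgebra (fun y hy => by
      obtain ⟨i, rfl⟩ := hs y (mem_union_left _ hy)
      exact IntermediateField.subset_adjoin _ _ ⟨i, 0, by simp [s0]⟩) ⊥ Ideal.isPrime_bot u
    have m : (a : L) * (b : L)⁻¹ ∈ K := mul_mem a.2 (K.inv_mem b.2)
    rcases h' with q | q
    · exact q ▸ m
    · exact inv_mem_iff.1 (q ▸ m)
  · obtain ⟨Q, hQ⟩ := hpl c hc
    have := h.a.dvr Q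
    exact IsRegularLocalRing.of_ringEquiv (R := Q.V) (RingEquiv.subringCongr
      (s := Q.V.toSubring) (t := (locRing s c).toSubring) (SetLike.ext hQ))
  · obtain ⟨Q, hQ⟩ := hpl _ hc₀
    refine cv2_le h (P := Q) (Q := P₀) (fun u hu => ?_) ▸ hQ
    obtain ⟨F, G, d, -, hG, h0, rfl⟩ := (mem_locRing hc₀.1 u).1 ((hQ u).1 hu)
    rw [Ne, eval_mk hG, ← (cv2_aeval h P₀ hsV G).2] at h0
    rw [div_eq_mul_inv]
    exact mul_mem (cv2_aeval h P₀ hsV F).1 (cv2_inv h P₀ (cv2_aeval h P₀ hsV G).1 h0).2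

end Pool.Agent.MP_c69980_ag.H43
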