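import Pool.Agent.MP_c69980_ag.S71.Tay

/-!
Formal arcs transversal to a divisor.
-/

set_option autoImplicit false

namespace Pool.Agent.MP_c69980_ag.H43

open H60 Finset PowerSeries

theorem sJet : SJet := by
  intro K _ _ V η π Ω _ τ n hV hc hη hπ hη1 hτ hn
  obtain ⟨T, hT⟩ := sTay K Unit (fun _ => η) fun _ _ _ => rfl
  let W : Submodule ℂ K :=
    { V.toSubring.toAddSubgroup with
      smul_mem' := fun c x hx => by rw [Algebra.smul_def]; exact V.mul_mem _ _ (hc c) hx }
  let T₀ : K →+* PowerSeries K := T
  have m : ∀ (x : V) k, coeff k (T₀ x) ∈ V := fun x k =>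
    hT.ind (fun _ => W) (fun _ _ x hx => hη x hx) 0 x x.2 _
  let f : V → PowerSeries V := fun x => mk fun k => ⟨_, m x k⟩
  have hf : ∀ x, map V.subtype (f x) = T₀ x := fun x => ext fun k => by simp [f]
  have inj : Function.Injective (map V.subtype) := map_injective _ Subtype.val_injective
  let T₁ : V →+* PowerSeries V :=
    { toFun := f
      map_one' := inj (by simp [hf])
      map_mul' := fun x y => inj (by simp [hf])
      map_zero' := inj (by simp [hf])
      map_add' := fun x y => inj (by simp [hf]) }
  have h1 : ∀ x, map V.subtype (T₁ x) = T₀ x := hf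
  have c0 : ∀ x, constantCoeff (T₁ x) = x := fun x => Subtype.ext (by
    have e := congrArg (coeff 0) (h1 x)
    rw [coeff_map, coeff_zero_eq_constantCoeff_apply, coeff_zero_eq_constantCoeff_apply] at e
    exact e.trans (hT.zero x))
  let p : V := ⟨π, (V.valuation_le_one_iff π).1 hπ.le⟩
  have c1 : (coeff 1 (T₁ p) : V) = η π := by
    have := congrArg MvPowerSeries.constantCoeff (hT.der () π)
    rw [hT.zero, ← MvPowerSeries.coeff_zero_eq_constantCoeff_apply, MvPowerSeries.coeff_pderiv]
      at this
    have e := congrArg (coeff 1) (h1 p)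
    rw [coeff_map] at e
    exact e.trans (by simpa [coeff] using this)
  have irr : Irreducible p := by
    refine ⟨fun q => hπ.ne ((V.valuation_eq_one_iff p).1 q), fun a b e => by_contra fun q => ?_⟩
    rw [not_or, V.valuation_eq_one_iff, V.valuation_eq_one_iff] at q
    have l : ∀ a b : V, ¬ V.valuation a = 1 → V.valuation ((a : K) • η b) < 1 := fun a b q => by
      rw [smul_eq_mul, map_mul]
      exact mul_lt_one_of_nonneg_of_lt_one_left zero_le (lt_of_le_of_ne (V.valuation_le_one a) q)
        ((V.valuation_le_one_iff _).2 (hη _ b.2))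
    have e' : π = a * b := congrArg Subtype.val e
    rw [e', Derivation.leibniz] at hη1
    exact (V.valuation.map_add_lt (l a b q.1) (l b a q.2)).ne hη1
  have op : (map τ (T₁ p)).order = 1 := by
    refine order_eq_nat.2 ⟨?_, fun i hi => ?_⟩
    · rw [coeff_map, Ne, hτ, c1, hη1]; exact lt_irrefl _
    · rw [Nat.lt_one_iff.1 hi, coeff_map, coeff_zero_eq_constantCoeff_apply, c0, hτ]; exact hπ
  refine ⟨(expand n hn.ne').toRingHom.comp ((map τ).comp T₁), fun x => ?_, fun x hx => ?_,
    fun x hx => ?_⟩
  · exact (constantCoeff_expand n hn.ne' _).trans (congrArg τ (c0 x))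
  · have : T₁ x = C x := inj (by rw [h1, map_C]; exact hT.cst x fun _ => hx)
    simp [this, expand_C]
  · obtain ⟨e, u, rfl⟩ := IsDiscreteValuationRing.eq_unit_mul_pow_irreducible hx irr
    refine ⟨e, by simp [(V.valuation_eq_one_iff _).1 u.isUnit, p], ?_⟩
    rw [map_mul, map_pow, order_mul, order_pow, order_zero_of_unit (u.isUnit.map _), zero_add]
    show e • (expand n hn.ne' (map τ (T₁ p))).order = _
    rw [order_expand, op]
    simp [mul_comm]

end Pool.Agent.MP_c69980_ag.H43
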