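import Pool.Agent.MP_c69980_ag.S71.Cv2

/-!
The image in `G` of a curve in `U`.
-/

set_option autoImplicit false

namespace Pool.Agent.MP_c69980_ag.H43

open MvPolynomial H60 Finset Filter Topology Metric Pool.Agent.MP_f3836a_nt.PK

lemma pull_map {σ : Type} {W : σ → ℕ × ℕ} {H : MvPolynomial σ ℂ} {D : ℕ × ℕ}
    (h : H.IsWeightedHomogeneous W D) (ψ : ℕ × ℕ →+ ℕ) {m : σ →₀ ℕ} (hm : m ∈ H.support) :
    ∑ i ∈ m.support, m i * ψ (W i) = ψ D := by
  rw [← h (mem_support_iff.1 hm), Finsupp.weight_apply, Finsupp.sum, map_sum]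
  exact sum_congr rfl fun i _ => by rw [map_nsmul, smul_eq_mul]

lemma pull_scale {ι κ A : Type} [CommRing A] [Algebra ℂ A] {H : MvPolynomial (ι ⊕ κ) ℂ} {d e : ℕ}
    (h : BiH H d e) (z : ι → A) (u : κ → A) (l : A) :
    aeval (Sum.elim z fun c => l * u c) H = l ^ e * aeval (Sum.elim z u) H := by
  rw [H.as_sum, map_sum, map_sum, mul_sum]
  refine sum_congr rfl fun m hm => ?_
  have := pull_map h (AddMonoidHom.snd ℕ ℕ) hm
  rw [aeval_monomial, aeval_monomial, mul_left_comm, show e = _ from this.symm,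
    ← prod_pow_eq_pow_sum, Finsupp.prod, Finsupp.prod, ← prod_mul_distrib]
  congr 1
  refine prod_congr rfl fun i _ => ?_
  cases i <;> simp [mul_pow]

lemma pull_hom {n : ℕ} {κ : Type} {H : MvPolynomial (Fin n ⊕ κ) ℂ} {d e : ℕ} (h : BiH H d e)
    {A : κ → PR n} {a : ℕ} (hA : ∀ c, (A c).IsHomogeneous a) :
    (aeval (Sum.elim X A) H : PR n).IsHomogeneous (d + a * e) := by
  rw [H.as_sum, map_sum]
  refine IsHomogeneous.sum _ _ _ fun m hm => ?_
  have := pull_map h (AddMonoidHom.fst ℕ ℕ + a • AddMonoidHom.snd ℕ ℕ) hm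
  rw [aeval_monomial, show d + a * e = _ from this.symm]
  refine IsHomogeneous.C_mul (IsHomogeneous.prod _ _ _ fun i _ => ?_) _
  cases i with
  | inl i => simpa using isHomogeneous_X_pow (R := ℂ) i (m (.inl i))
  | inr i => simpa [mul_comm] using (hA i).pow (m (.inr i))

section
variable {M n : ℕ} {K : Type} [Field K] [Algebra ℂ K] {z : Fin n → K} {u : Fin M → K}

/-- A local formula for the map to `G`. -/
def PullF (z : Fin n → K) (u : Fin M → K) (A : Fin M → PR n) (d : ℕ) : Prop :=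
  (∀ c, (A c).IsHomogeneous d) ∧ ∃ l : K, ∀ c, aeval z (A c) = l * u c

lemma pull_rel {A : Fin M → PR n} {d : ℕ} (h : PullF z u A d) {R : Type} [CommRing R]
    [Algebra ℂ R] {z' : Fin n → R}
    (hz : ∀ (G : PR n) (e : ℕ), G.IsHomogeneous e → aeval z G = 0 → aeval z' G = 0) (l : R) :
    Rel z u z' fun c => l * aeval z' (A c) := by
  intro H a b hH h0
  obtain ⟨h1, l', h2⟩ := h
  have e : ∀ (R : Type) [CommRing R] [Algebra ℂ R] (x : Fin n → R),
      aeval x (aeval (Sum.elim X A) H : PR n) = aeval (Sum.elim x fun c => aeval x (A c)) H := by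
    intro R _ _ x
    rw [← AlgHom.comp_apply, comp_aeval]
    congr 2
    ext i
    cases i <;> simp
  rw [pull_scale hH, ← e, hz _ _ (pull_hom hH h1), mul_zero]
  rw [e, funext h2, pull_scale hH, h0, mul_zero]

lemma pull_loc {t a : ℕ} {w : Fin M → Option (Fin t)} {Θ : Pt t a → Fin M → ℂ} {U : Set (PS n)}
    (h : Mp w Θ U z u) {x : PS n} (hx : x ∈ U) (o : Option (Fin t)) :
    ∃ b A d, w b = o ∧ PullF z u A d ∧ eval x.rep (A b) ≠ 0 := by
  classical
  obtain ⟨b, h1, h2, h3⟩ := h.hr x hx o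
  have on : On z x.rep := fun G d hG q => (h.gen.1 G d hG).1 q x hx
  choose F G d hF hG h0 e using fun c => (mem_locRing on _).1 (h3 c)
  have g0 : ∀ c, aeval z (G c) ≠ 0 := fun c q => h0 c (on _ _ (hG c) q)
  refine ⟨b, fun c => F c * ∏ c' ∈ univ.erase c, G c', ∑ c, d c, h1, ⟨fun c => ?_,
    (∏ c, aeval z (G c)) / u b, fun c => ?_⟩, ?_⟩
  · rw [← add_sum_erase _ _ (mem_univ c)]
    exact (hF c).mul (IsHomogeneous.prod _ _ _ fun c' _ => hG c')
  · rw [← mul_prod_erase _ _ (mem_univ c), map_mul, map_prod, div_mul_eq_mul_div, mul_div_assoc,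
      e c]
    field_simp [g0 c]
  · rw [map_mul, map_prod]
    refine mul_ne_zero ?_ (prod_ne_zero_iff.2 fun c _ => h0 c)
    have e1 := e b
    rw [div_self h2, eq_div_iff (g0 b), one_mul, ← sub_eq_zero, ← map_sub] at e1
    have := on _ _ ((hG b).sub (hF b)) e1
    rw [map_sub, sub_eq_zero] at this
    exact this ▸ h0 b

lemma pull_two {A A' : Fin M → PR n} {d d' : ℕ} (h : PullF z u A d) (h' : PullF z u A' d')
    {R : Type} [CommRing R] [Algebra ℂ R] {z' : Fin n → R}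
    (hz : ∀ (G : PR n) (e : ℕ), G.IsHomogeneous e → aeval z G = 0 → aeval z' G = 0) (c b : Fin M) :
    aeval z' (A c) * aeval z' (A' b) = aeval z' (A b) * aeval z' (A' c) := by
  obtain ⟨h1, l, h2⟩ := h
  obtain ⟨h3, l', h4⟩ := h'
  have := hz _ _ (((h1 c).mul (h3 b)).sub ((h1 b).mul (h3 c))) (by
    simp only [map_sub, map_mul, h2, h4]; ring)
  simpa [sub_eq_zero] using this

end

theorem sPull (h : SHtBd) : SPull := by
  intro t a M n w Θ K _ _ U z u r C L _ _ v pl f z' mp cv hf red ⟨c₀, hc₀⟩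
  have h3 := (h r n C L v pl f z' cv red).2.2
  have hU : ∀ c, f c ∈ U := fun c => hf ⟨c, rfl⟩
  have on : ∀ c (G : PR n) (e : ℕ), G.IsHomogeneous e → aeval z G = 0 →
      aeval (f c).rep G = 0 := fun c G d hG q => (mp.gen.1 G d hG).1 q _ (hU c)
  have hz : ∀ (G : PR n) (e : ℕ), G.IsHomogeneous e → aeval z G = 0 → aeval z' G = 0 :=
    fun G e hG q => by_contra fun n => by
      obtain ⟨c, hc⟩ := (h3 G e hG).1 n
      exact hc (on c G e hG q)
  choose b A d hb hA h0 using fun c o => pull_loc mp (hU c) o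
  have n0 : ∀ c o, aeval z' (A c o (b c o)) ≠ 0 := fun c o =>
    (h3 _ _ ((hA c o).1 _)).2 ⟨c, h0 c o⟩
  let y : Fin M → L := fun i => aeval z' (A ⟨c₀, hc₀⟩ none i)
  have two : ∀ c o i, y i * aeval z' (A c o (b c o)) = y (b c o) * aeval z' (A c o i) :=
    fun c o i => pull_two (hA _ none) (hA c o) hz i _
  have y0 : ∀ c o, y (b c o) ≠ 0 := fun c o q => by
    have := two c o (b ⟨c₀, hc₀⟩ none)
    rw [q, zero_mul] at this
    exact mul_ne_zero (n0 _ _) (n0 c o) this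
  refine ⟨y, ⟨fun o => ⟨_, hb ⟨c₀, hc₀⟩ o, y0 _ o⟩, fun F e hF q => ?_⟩,
    by simpa using pull_rel (hA ⟨c₀, hc₀⟩ none) hz 1, fun c => ?_⟩
  · obtain ⟨h1, l, h2⟩ := hA ⟨c₀, hc₀⟩ none
    have := hz _ _ (hF.aeval _ h1) (by
      rw [← AlgHom.comp_apply, comp_aeval, funext h2, aeval_scale hF, mp.hu F e hF q, mul_zero])
    rwa [← AlgHom.comp_apply, comp_aeval] at this
  obtain ⟨κ, k1, k2, k3⟩ := red c
  obtain ⟨s, s0, hs⟩ := rep_mk k2
  rw [← k3] at hs
  have va := fun F : PR n => cv2_aeval cv.ff (pl c) k1 F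
  have ev : ∀ o i, eval (f c).rep (A c o i) =
      s ^ d c o * (pl c).val (aeval (fun j => κ * z' j) (A c o i)) := fun o i => by
    rw [(va _).2, hs, eval_smul_hom ((hA c o).1 i)]
  have iv := fun o => cv2_inv cv.ff (pl c) (va (A c o (b c o))).1 fun q =>
    h0 c o (by rw [ev, q, mul_zero])
  have tw : ∀ o i, y i * aeval (fun j => κ * z' j) (A c o (b c o)) =
      y (b c o) * aeval (fun j => κ * z' j) (A c o i) := fun o i => by
    rw [aeval_scale ((hA c o).1 _), aeval_scale ((hA c o).1 _), mul_left_comm, two, mul_left_comm]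
  refine ⟨⟨b c, fun o => ⟨hb c o, y0 c o⟩, fun x => ?_⟩, ?_⟩
  · rw [co, (div_eq_div_iff (y0 c _) (iv x.2).1).2 ((tw x.2 x.1).trans (mul_comm _ _)),
      div_eq_mul_inv]
    exact mul_mem (va _).1 (iv _).2
  · rintro x ⟨κ', l1, l2, l3⟩
    obtain ⟨s', -, hs'⟩ := rep_mk l2
    rw [← l3] at hs'
    have mul : ∀ p ∈ (pl c).V, ∀ q ∈ (pl c).V, (pl c).val (p * q) = (pl c).val p * (pl c).val q :=
      fun p hp q hq => by
        obtain ⟨χ, h1, -⟩ := cv.ff.a.hom (pl c)
        rw [← h1 ⟨_, hp⟩, ← h1 ⟨_, hq⟩, ← χ.map_mul, h1]; rfl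
    have := pull_rel (hA c none) (on c)
      (s' * (pl c).val (κ' * y (b c none)) / eval (f c).rep (A c none (b c none)))
    convert this with i
    rw [hs', Pi.smul_apply, smul_eq_mul, div_mul_eq_mul_div, eq_div_iff (h0 c none),
      aeval_eq_eval, ev, ev]
    have e := congrArg (fun p => (pl c).val (κ' * p)) (tw none i)
    simp only [← mul_assoc] at e
    rw [mul _ (l1 _) _ (va _).1, mul _ (l1 _) _ (va _).1] at e
    linear_combination s' * s ^ d c none * e

end Pool.Agent.MP_c69980_ag.H43
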