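import Pool.Agent.MP_c69980_ag.H43.Spec9

/-!
The Taylor homomorphism of a family of commuting derivations.
-/

set_option autoImplicit false

namespace Pool.Agent.MP_c69980_ag.H43

open H60 Finset MvPowerSeries

lemma tay_ind {ι : Type} {P : (ι →₀ ℕ) → Prop} (h0 : P 0)
    (h1 : ∀ m i, P m → P (m + Finsupp.single i 1)) (m : ι →₀ ℕ) : P m := by
  induction m using Finsupp.induction with
  | zero => exact h0
  | single_add a b f _ _ ih =>
    rw [add_comm]
    clear * - ih h1
    induction b with
    | zero => simpa using ih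
    | succ b hb => rw [Finsupp.single_add, ← add_assoc]; exact h1 _ _ hb

lemma tay_pow {K : Type} [Field K] [Algebra ℂ K] {ι : Type} [Fintype ι]
    (d : ι → Derivation ℂ K K) (h : ∀ i j x, d i (d j x) = d j (d i x)) :
    ∃ D : (ι →₀ ℕ) → Module.End ℂ K, D 0 = 1 ∧
      ∀ m i x, D (m + Finsupp.single i 1) x = D m (d i x) := by
  classical
  let ϕ : ι → Multiplicative ℕ →* Module.End ℂ K := fun i => powersHom _ (d i).toLinearMap
  have hc : Pairwise fun i j => ∀ x y, Commute (ϕ i x) (ϕ j y) := fun i j _ x y =>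
    Commute.pow_pow (LinearMap.ext fun z => h i j z) _ _
  let Δ := MonoidHom.noncommPiCoprod (N := fun _ => Multiplicative ℕ) ϕ hc
  refine ⟨fun m => Δ fun i => Multiplicative.ofAdd (m i), map_one Δ, fun m i x => ?_⟩
  have : (fun j => Multiplicative.ofAdd ((m + Finsupp.single i 1 : ι →₀ ℕ) j)) =
      (fun j => Multiplicative.ofAdd (m j)) * Pi.mulSingle i (Multiplicative.ofAdd 1) := by
    funext j
    by_cases e : j = i
    · subst e; simp [ofAdd_add]
    · simp [e]
  simp only [this, map_mul, Δ, MonoidHom.noncommPiCoprod_mulSingle]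
  simp [ϕ]

theorem sTay : STay := by
  intro K _ _ ι _ d h
  classical
  have : CharZero K := charZero_of_injective_algebraMap (algebraMap ℂ K).injective
  obtain ⟨D, D0, D1⟩ := tay_pow d h
  let T : K →ₗ[ℂ] PW ι K :=
    LinearMap.pi fun m => ((∏ i, ((m i).factorial : ℂ))⁻¹ • D m : K →ₗ[ℂ] K)
  have hT : ∀ m x, coeff m (T x) = (∏ i, ((m i).factorial : ℂ))⁻¹ • D m x := fun _ _ => rfl
  have z : ∀ x, coeff 0 (T x) = x := fun x => by simp [hT, D0]
  have z' : ∀ x, constantCoeff (T x) = x := z
  have n0 : ∀ n : ℕ, (n + 1 : K) ≠ 0 := Nat.cast_add_one_ne_zero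
  have rc : ∀ m i x, coeff (m + Finsupp.single i 1) (T x) * (m i + 1) = coeff m (T (d i x)) := by
    intro m i x
    have e : ∏ j, (((m + Finsupp.single i 1 : ι →₀ ℕ) j).factorial : ℂ) =
        (m i + 1) * ∏ j, ((m j).factorial : ℂ) := by
      rw [← mul_prod_erase _ _ (mem_univ i), ← mul_prod_erase _ _ (mem_univ i), ← mul_assoc]
      congr 1
      · simp [Nat.factorial_succ]
      · exact prod_congr rfl fun j hj => by simp [ne_of_mem_erase hj]
    have e' : (m i + 1 : K) = algebraMap ℂ K (m i + 1) := by simp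
    rw [hT, hT, D1, e, e', mul_comm, ← Algebra.smul_def, smul_smul, mul_inv,
      mul_inv_cancel_left₀ (Nat.cast_add_one_ne_zero _)]
  have der : ∀ i x, pderiv K i (T x) = T (d i x) := fun i x =>
    MvPowerSeries.ext fun m => (coeff_pderiv _ _).trans (rc m i x)
  have cst : ∀ x, (∀ i, d i x = 0) → T x = C x := fun x hx =>
    pderiv.ext (fun i => by rw [der, hx, map_zero, pderiv_C]) (by rw [z', constantCoeff_C])
  have mul : ∀ m x y, coeff m (T (x * y)) = coeff m (T x * T y) := tay_ind
    (fun x y => by rw [z, coeff_zero_eq_constantCoeff_apply, map_mul, z', z'])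
    fun m i ih x y => mul_right_cancel₀ (n0 (m i)) (by
      rw [rc, ← coeff_pderiv, Derivation.leibniz, Derivation.leibniz, der, der]
      simp only [smul_eq_mul, map_add, ih])
  refine ⟨⟨⟨⟨T, (cst 1 fun i => (d i).map_one_eq_zero).trans (map_one C)⟩,
    fun x y => MvPowerSeries.ext fun m => mul m x y⟩, T.map_zero, T.map_add⟩, z', der, cst,
    fun E hE x m => ?_, fun W hW n x hx m => ?_⟩
  · show coeff m (T (E x)) = E (coeff m (T x))
    induction m using tay_ind generalizing x with
    | h0 => rw [z, z]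
    | h1 m i ih =>
      refine mul_right_cancel₀ (n0 (m i)) ?_
      rw [rc, ← hE, ih, ← rc, mul_add, mul_add, mul_one, mul_one, map_add, mul_comm, mul_comm (E _),
        ← nsmul_eq_mul, ← nsmul_eq_mul, map_nsmul]
  · show coeff m (T x) ∈ _
    induction m using tay_ind generalizing n x with
    | h0 => simpa [z] using hx
    | h1 m i ih =>
      have := (W _).smul_mem (m i + 1 : ℂ)⁻¹ (ih _ _ (hW n i x hx))
      rw [← rc, Algebra.smul_def, map_inv₀, map_add, map_natCast, map_one, mul_comm,
        mul_inv_cancel_right₀ (n0 _)] at this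
      rwa [map_add, Finsupp.degree_single, add_comm _ 1, ← add_assoc]

end Pool.Agent.MP_c69980_ag.H43
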