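import Pool.Agent.MP_c69980_ag.H43.Spec9

/-!
The formal translates of a differential field are linearly disjoint over the constants.
-/

set_option autoImplicit false

namespace Pool.Agent.MP_c69980_ag.H43

open H60 Finset MvPowerSeries TensorProduct

lemma ten_step {F R A B : Type} [Field F] [CommRing R] [CommRing A] [CommRing B] [Algebra F R]
    [Algebra F A] [Algebra F B] (O : Subalgebra F R) (Φ : O →ₐ[F] A) (e : B →ₐ[F] R)
    (τ : B →ₐ[F] A) (H : ∀ (ι : Type) (c : ι → O), LinearIndependent F c → ∀ (s : Finset ι)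
      (x : ι → B), ∑ p ∈ s, e (x p) * c p = 0 → ∀ p ∈ s, x p = 0) :
    ∃ Φ' : (e.range ⊔ O : Subalgebra F R) →ₐ[F] A, (∀ x : O, ∃ h, Φ' ⟨x, h⟩ = Φ x) ∧
      ∀ b, ∃ h, Φ' ⟨e b, h⟩ = τ b := by
  let μ := Algebra.TensorProduct.productMap e O.val
  have inj : Function.Injective μ := (injective_iff_map_eq_zero μ).2 fun z hz => by
    let β := Module.Free.chooseBasis F O
    obtain ⟨x, rfl⟩ := TensorProduct.eq_repr_basis_right β z
    have := H _ β β.linearIndependent x.support x (by simpa [μ, Finsupp.sum] using hz)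
    exact sum_eq_zero fun p hp => by simp [this p hp]
  have r : e.range ⊔ O = μ.range := by
    rw [Algebra.TensorProduct.productMap_range, Subalgebra.range_val]
  rw [r]
  refine ⟨(Algebra.TensorProduct.productMap τ Φ).comp (AlgEquiv.ofInjective μ inj).symm,
    fun x => ⟨⟨1 ⊗ₜ x, by simp [μ]⟩, ?_⟩, fun b => ⟨⟨b ⊗ₜ 1, by simp [μ]⟩, ?_⟩⟩
  · have : ∀ h, (AlgEquiv.ofInjective μ inj).symm ⟨x, h⟩ = 1 ⊗ₜ x := fun h =>
      (AlgEquiv.symm_apply_eq _).2 (Subtype.ext (by simp [μ]))
    simp [this]
  · have : ∀ h, (AlgEquiv.ofInjective μ inj).symm ⟨e b, h⟩ = b ⊗ₜ 1 := fun h =>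
      (AlgEquiv.symm_apply_eq _).2 (Subtype.ext (by simp [μ]))
    simp [this]

lemma ten_dis {K R S : Type} [Field K] [Algebra ℂ K] {F : IntermediateField ℂ K} [CommRing R]
    [Algebra F R] [CommRing S] [Algebra S R] {s : ℕ} {d : Fin s → Derivation ℂ K K}
    (hF : ∀ x, (∀ l, d l x = 0) → x ∈ F) (T : K →+* R) (hT : ∀ x : F, T x = algebraMap F R x)
    (D : Fin s → Derivation S R R) (hD : ∀ l x, D l (T x) = T (d l x)) {ι : Type} {c : ι → R}
    (hc : LinearIndependent F c) (h0 : ∀ l p, D l (c p) = 0) (t : Finset ι) (x : ι → K)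
    (h : ∑ p ∈ t, T (x p) * c p = 0) : ∀ p ∈ t, x p = 0 := by
  classical
  induction t using Finset.strongInduction generalizing x with
  | H t ih =>
    intro q hq
    by_contra n
    have h1 : ∑ p ∈ t, T (x p / x q) * c p = 0 := by
      simp only [div_eq_inv_mul, map_mul, mul_assoc, ← mul_sum, h, mul_zero]
    have h2 : ∀ p ∈ t, x p / x q ∈ F := fun p hp => hF _ fun l => by
      by_cases e : p = q
      · rw [e, div_self n, Derivation.map_one_eq_zero]
      refine ih (t.erase q) (erase_ssubset hq) (fun p => d l (x p / x q)) ?_ p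
        (mem_erase.2 ⟨e, hp⟩)
      have := congrArg (D l) h1
      rw [map_sum, map_zero] at this
      rw [sum_erase _ (by simp [div_self n]), ← this]
      exact sum_congr rfl fun p _ => by simp [Derivation.leibniz, h0, hD, mul_comm]
    have := linearIndependent_iff'.1 hc t (fun p => if h : p ∈ t then ⟨_, h2 p h⟩ else 0)
      (h1 ▸ sum_congr rfl fun p hp => by rw [dif_pos hp, Algebra.smul_def, ← hT]) q hq
    rw [dif_pos hq] at this
    exact one_ne_zero ((div_self n).symm.trans (congrArg Subtype.val this))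

theorem sTen : STen := by
  intro K _ _ F s s' d T B hB A _ τ hF _ hT hτ
  classical
  let B' : Option (Fin s') → Subalgebra F K := fun o =>
    { B o with algebraMap_mem' := fun x => hB o x x.2 }
  let _ : Algebra F A := ((τ none).comp (algebraMap F (B' none))).toAlgebra
  let τ' : ∀ o, B' o →ₐ[F] A := fun o => { τ o with commutes' := fun x => hτ o x x.2 }
  have cF : ∀ j (x : F), T j x = algebraMap F _ x := fun j x => (hT j).cst x fun i => by
    by_cases e : i.1 = j <;> simp [dj, e, (hF x).1 x.2]
  let e : ∀ o, B' o →ₐ[F] PW (Fin s' × Fin s) K := fun o =>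
    { (o.elim C T : K →+* _).comp (B o).subtype with
      commutes' := fun x => by
        cases o with
        | none => rfl
        | some j => exact cF j x }
  let S : Fin s' → Subalgebra F (PW (Fin s' × Fin s) K) := fun j =>
    { carrier := {r | ∀ l, pderiv K (j, l) r = 0}
      mul_mem' := fun a b l => by rw [Derivation.leibniz, a l, b l, smul_zero, smul_zero, add_zero]
      add_mem' := fun a b l => by rw [map_add, a l, b l, add_zero]
      algebraMap_mem' := fun x l => pderiv_C }
  have key : ∀ J : Finset (Fin s'), ∃ (O : Subalgebra F (PW (Fin s' × Fin s) K)) (Φ : O →ₐ[F] A),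
      (∀ j ∉ J, O ≤ S j) ∧ ∀ o, (∀ j, o = some j → j ∈ J) → ∀ x, ∃ h, Φ ⟨e o x, h⟩ = τ' o x := by
    intro J
    induction J using Finset.induction_on with
    | empty =>
      have inj : Function.Injective (e none) := fun x y q => Subtype.ext (C_injective q)
      refine ⟨(e none).range, (τ' none).comp (AlgEquiv.ofInjective _ inj).symm, ?_, ?_⟩
      · rintro j - _ ⟨x, rfl⟩ l
        exact pderiv_C
      · rintro (_ | j) h x
        · exact ⟨⟨x, rfl⟩, congrArg _ ((AlgEquiv.ofInjective _ inj).symm_apply_apply x)⟩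
        · simpa using h j rfl
    | insert j J hj ih =>
      obtain ⟨O, Φ, h1, h2⟩ := ih
      obtain ⟨Φ', h3, h4⟩ := ten_step O Φ (e (some j)) (τ' (some j)) fun ι c hc t x h p hp =>
        Subtype.ext (ten_dis (fun x => (hF x).2) (T j) (cF j) (fun l => pderiv K (j, l))
          (fun l x => by rw [(hT j).der, dj, if_pos rfl])
          (hc.map' O.val.toLinearMap (LinearMap.ker_eq_bot.2 Subtype.val_injective))
          (fun l p => h1 j hj (c p).2 l) t (fun p => x p) h p hp)
      refine ⟨_, Φ', fun i hi => sup_le ?_ (h1 i fun q => hi (mem_insert_of_mem q)),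
        fun o ho x => ?_⟩
      · rintro _ ⟨x, rfl⟩ l
        have : i ≠ j := fun q => hi (q ▸ mem_insert_self _ _)
        exact ((hT j).der (i, l) x).trans (by simp [dj, this])
      · by_cases q : o = some j
        · subst q; exact h4 x
        · obtain ⟨a, b⟩ := h2 o (fun i hi =>
            (mem_insert.1 (ho i hi)).resolve_left fun r => q (r ▸ hi)) x
          exact b ▸ h3 ⟨_, a⟩
  obtain ⟨O, Φ, -, h⟩ := key univ
  exact ⟨O.toSubring, Φ.toRingHom, fun o x => h o (fun j _ => mem_univ j) x⟩

end Pool.Agent.MP_c69980_ag.H43
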