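import Pool.Agent.MP_c69980_ag.H43.Spec7

/-!
The embedding into `ℂ` of an ultraproduct of function fields.
-/

set_option autoImplicit false

namespace Pool.Agent.MP_c69980_ag.H43

open MvPolynomial H60 Finset Filter Topology Metric Pool.Agent.MP_f3836a_nt.PK

lemma ult_chain {M : ℕ} {E B : Subfield ℂ} {D : Der} {y : Fin M → ℂ} {s : Set ℂ}
    (hs : s.Countable) (h1 : s ⊆ B) (h2 : B ≤ E) (h3 : rat y ⊆ E) (h4 : Pres D B)
    (h5 : ∀ x ∈ E, D x = 0 → x ∈ B) : ∃ F : Subfield ℂ, s ⊆ F ∧ F ≤ B ∧ Countable F ∧ Pres D F ∧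
      ∀ x ∈ FL F y, D x = 0 → x ∈ F := by
  let T : Subfield ℂ → Subfield ℂ := fun F =>
    Subfield.closure (F ∪ D '' F ∪ {x | x ∈ FL F y ∧ D x = 0})
  let G : ℕ → Subfield ℂ := fun n => T^[n] (Subfield.closure s)
  have e : ∀ n, G (n + 1) = T (G n) := fun n => Function.iterate_succ_apply' T n _
  have mono : Monotone G := monotone_nat_of_le_succ fun n x hx =>
    e n ▸ Subfield.subset_closure (Or.inl (Or.inl hx))
  have a : ∀ n, G n ≤ B ∧ Countable (G n) := fun n => by
    induction n with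
    | zero => exact ⟨Subfield.closure_le.2 h1, closure_countable hs⟩
    | succ n ih =>
      have c := Set.countable_coe_iff.1 ih.2
      rw [e]
      refine ⟨Subfield.closure_le.2 ?_, closure_countable ((c.union (c.image _)).union
        ((Set.countable_coe_iff.1 (FL_countable ih.2 y)).mono fun x hx => hx.1))⟩
      rintro x ((hx | ⟨x, hx, rfl⟩) | hx)
      · exact ih.1 hx
      · exact h4 _ (ih.1 hx)
      · exact h5 x (FL_le (ih.1.trans h2) h3 hx.1) hx.2
  have mem : ∀ x, x ∈ ⨆ n, G n ↔ ∃ n, x ∈ G n := fun x =>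
    Subfield.mem_iSup_of_directed mono.directed_le
  have m2 : Monotone fun n => FL (G n) y := fun i j h =>
    FL_le ((mono h).trans (le_FL _ _)) (rat_FL _ _)
  refine ⟨⨆ n, G n, fun x hx => (mem x).2 ⟨0, Subfield.subset_closure hx⟩,
    iSup_le fun n => (a n).1, ?_, fun x hx => ?_, fun x hx h0 => ?_⟩
  · refine Set.countable_coe_iff.2 ((Set.countable_iUnion fun n =>
      Set.countable_coe_iff.1 (a n).2).mono fun x hx => ?_)
    exact Set.mem_iUnion.2 ((mem x).1 hx)
  · obtain ⟨n, hn⟩ := (mem x).1 hx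
    exact (mem _).2 ⟨n + 1, e n ▸ Subfield.subset_closure (Or.inl (Or.inr ⟨x, hn, rfl⟩))⟩
  · have : FL (⨆ n, G n) y ≤ ⨆ n, FL (G n) y := FL_le (iSup_mono fun n => le_FL _ _)
      ((rat_FL (G 0) y).trans (le_iSup (fun n => FL (G n) y) 0))
    obtain ⟨n, hn⟩ := (Subfield.mem_iSup_of_directed m2.directed_le).1 (this hx)
    exact (mem _).2 ⟨n + 1, e n ▸ Subfield.subset_closure (Or.inr ⟨hn, h0⟩)⟩

lemma ult_card {L : Type} [Field L] [Algebra ℂ L] (h : IsFF ℂ L) :
    Cardinal.mk L ≤ Cardinal.continuum := by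
  obtain ⟨t, -, hfd⟩ := h
  refine (Algebra.IsAlgebraic.cardinalMk_le_max (IntermediateField.adjoin ℂ {t}) L).trans
    (max_le ?_ Cardinal.aleph0_le_continuum)
  refine (IntermediateField.cardinalMk_adjoin_le ℂ _).trans ?_
  simp [Cardinal.mk_complex, Cardinal.aleph0_le_continuum,
    Cardinal.one_le_aleph0.trans Cardinal.aleph0_le_continuum]

lemma ult_deg {L : Type} [Field L] [Algebra ℂ L] {D : Derivation ℂ L L} {S : Finset (Pl L)}
    {m : Pl L → ℤ} {χ : ℕ} (h : CD D S m χ) (x : L) : deg (D x) ≤ 2 * deg x + χ ^ 2 := by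
  classical
  have key : ∀ P : Pl L, lam P (D x) ≤ 2 * lam P x + if P ∈ S then χ else 0 := fun P => by
    have a1 := h.le P
    have a2 := h.one P
    by_cases hx : x ∈ P.V
    · rcases h.reg P x hx with e | e
      · simp [e, lam_zero]
      · simp only [lam]
        split_ifs with q
        · omega
        · have := a2 q; omega
    · have x0 : x ≠ 0 := fun e => hx (e ▸ zero_mem _)
      rw [h.ff.a.mem P x x0] at hx
      have := (h.ord P x (by omega)).2
      simp only [lam]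
      split_ifs with q
      · omega
      · have := a2 q; omega
  refine h.ff.deg_le _ fun T => (sum_le_sum fun P _ => key P).trans ?_
  rw [sum_add_distrib, ← mul_sum, sum_ite_mem, sum_const, smul_eq_mul, sq]
  exact add_le_add (Nat.mul_le_mul_left _ (h.ff.sum_le_deg x T))
    (Nat.mul_le_mul_right _ ((card_le_card inter_subset_right).trans h.card))

lemma ult_lo {U : Ultrafilter ℕ} {τ f g e : ℕ → ℕ} (hf : Lo U τ f) (hg : Lo U τ g)
    (h : ∀ n, e n ≤ f n + g n) : Lo U τ e := fun N => by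
  filter_upwards [hf (2 * N), hg (2 * N)] with n a b
  have := Nat.mul_le_mul_left N (h n)
  nlinarith

lemma ult_phi (h1 : SEmb) {k : Subfield ℂ} (hk : Countable k) (L : ℕ → Type) [∀ n, Field (L n)]
    [∀ n, Algebra ℂ (L n)] (U : Ultrafilter ℕ) (h : ∀ n, IsFF ℂ (L n)) :
    ∃ φ : (∀ n, L n) →+* ℂ, (∀ x, φ x = 0 ↔ ∀ᶠ n in U, x n = 0) ∧
      ∀ c ∈ k, φ (fun n => algebraMap ℂ (L n) c) = c := by
  let I : Ideal (∀ n, L n) :=
    { carrier := {x | ∀ᶠ n in U, x n = 0}
      add_mem' := fun a b => (a.and b).mono fun n q => by simp [q.1, q.2]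
      zero_mem' := Eventually.of_forall fun _ => rfl
      smul_mem' := fun c x a => Eventually.mono a fun n q => by simp [q] }
  have : I.IsPrime := ⟨(Ideal.ne_top_iff_one I).2 fun q => by
      obtain ⟨n, hn⟩ := Eventually.exists q
      exact one_ne_zero hn,
    fun q => Ultrafilter.eventually_or.1 (Eventually.mono q fun n e => mul_eq_zero.1 e)⟩
  let : Algebra k ((∀ n, L n) ⧸ I) := ((Ideal.Quotient.mk I).comp
    (RingHom.pi fun n => (algebraMap ℂ (L n)).comp k.subtype)).toAlgebra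
  obtain ⟨ψ, hψ⟩ := h1.1 k hk ((∀ n, L n) ⧸ I) (by
    refine (Cardinal.mk_le_of_surjective Ideal.Quotient.mk_surjective).trans ?_
    rw [Cardinal.mk_pi]
    refine (Cardinal.prod_le_prod _ _ fun n => ult_card (h n)).trans ?_
    simp)
  refine ⟨ψ.toRingHom.comp (Ideal.Quotient.mk I), fun x => ?_, fun c hc => ψ.commutes ⟨c, hc⟩⟩
  exact (map_eq_zero_iff ψ hψ).trans Ideal.Quotient.eq_zero_iff_mem

theorem sUlt (h1 : SEmb) (h2 : SExt) : SUlt := by
  intro t a M w Θ PP k L _ _ U D S m χ y g gd hk sq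
  obtain ⟨φ, ker, cst⟩ := ult_phi h1 hk L U fun n => (sq.cd n).ff.ff
  have cg : ∀ x x' : ∀ n, L n, (∀ᶠ n in U, x n = x' n) → φ x = φ x' := fun x x' q => by
    rw [← sub_eq_zero, ← map_sub, ker]
    exact q.mono fun n e => sub_eq_zero.2 e
  have inv : ∀ x : ∀ n, L n, φ (fun n => (x n)⁻¹) = (φ x)⁻¹ := fun x => by
    by_cases e : φ x = 0
    · rw [e, inv_zero, ker]
      exact ((ker x).1 e).mono fun n q => by simp [q]
    · refine eq_inv_of_mul_eq_one_left ?_
      rw [← map_mul, ← φ.map_one]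
      exact cg _ _ ((Ultrafilter.eventually_not.2 ((ker x).not.1 e)).mono fun n q =>
        inv_mul_cancel₀ q)
  have dv : ∀ x x' : ∀ n, L n, φ (fun n => x n / x' n) = φ x / φ x' := fun x x' => by
    rw [div_eq_mul_inv, ← inv, ← map_mul]
    exact congrArg φ (funext fun n => div_eq_mul_inv _ _)
  have ev : ∀ (ι : Type) (A : MvPolynomial ι ℂ) (x : ∀ n, ι → L n), Cf k A →
      φ (fun n => aeval (x n) A) = eval (fun i => φ fun n => x n i) A := fun ι A x h => by
    obtain ⟨A', rfl⟩ := cf_iff.1 h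
    clear h
    induction A' using MvPolynomial.induction_on with
    | C c => simpa using cst c c.2
    | add p q hp hq => simp only [map_add, ← hp, ← hq]; exact φ.map_add _ _
    | mul_X p i hp =>
      simp only [map_mul, map_X, aeval_X, eval_X, ← hp]; exact φ.map_mul _ _
  let dd : (∀ n, L n) →+ ∀ n, L n :=
    { toFun := fun x n => D n (x n)
      map_zero' := funext fun n => map_zero (D n)
      map_add' := fun x x' => funext fun n => map_add (D n) _ _ }
  obtain ⟨D', der⟩ := h2.1 _ φ (φ.toAddMonoidHom.comp dd) (fun x x' => by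
      show φ (dd (x * x')) = φ x * φ (dd x') + φ x' * φ (dd x)
      rw [← map_mul, ← map_mul, ← map_add]
      exact congrArg φ (funext fun n => (D n).leibniz _ _))
    fun x hx => (ker _).2 (((ker x).1 hx).mono fun n q => show D n (x n) = 0 by rw [q, map_zero])
  replace der : ∀ x, D' (φ x) = φ fun n => D n (x n) := der
  obtain ⟨β, hβ⟩ : ∃ β, ∀ᶠ n in U, Ch w β (y n) :=
    Ultrafilter.eventually_exists_iff.1 (Eventually.of_forall fun n => exists_ch (sq.on n).blk)
  have b0 : ∀ o, w (β o) = o ∧ φ (fun n => y n (β o)) ≠ 0 := fun o =>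
    ⟨(hβ.exists.choose_spec o).1, fun e => by
      obtain ⟨n, b1, b2⟩ := (((ker _).1 e).and hβ).exists
      exact (b2 o).2 b1⟩
  obtain ⟨p₀, l, e⟩ := gd.clh (fun c => φ fun n => y n c) (fun o => ⟨_, b0 o⟩)
    fun F d hF hc h0 => by
      rw [← ev _ F y hc, ker]
      exact Eventually.of_forall fun n => (sq.on n).eqs F d hF h0
  have th : ∀ c, φ (fun n => y n c) = l * Θ p₀ c := congrFun e
  have l0 : l ≠ 0 := left_ne_zero_of_mul (th _ ▸ (b0 none).2)
  have rt : ∀ c b, Θ p₀ c / Θ p₀ b = φ fun n => y n c / y n b := fun c b => by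
    rw [dv, th, th, mul_div_mul_left _ _ l0]
  have ch : Ch w β (Θ p₀) := fun o => ⟨(b0 o).1, right_ne_zero_of_mul (th _ ▸ (b0 o).2)⟩
  have tan : Tan Θ D' p₀ fun i => φ fun n => g n i := (gd.tan_iff ch).2 fun x => by
    have e0 : co β (Θ p₀) = fun x => φ fun n => co β (y n) x := funext fun x => rt _ _
    rw [e0, der, cg _ _ (hβ.mono fun n q => sq.vel n β q x), vf_eq]
    simp only [← ev _ _ (fun n => co β (y n)) (gd.cf β _ _), ← map_mul, ← map_sum]
    exact congrArg φ (funext fun n => by simp [vf])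
  have lo0 : ∀ f : ℕ → ℕ, (∀ᶠ n in U, f n = 0) → Lo U (fun n => ht (y n)) f := fun f q N =>
    q.mono fun n e => by simp [e]
  have cs : ∀ c : ℂ, Lo U (fun n => ht (y n)) fun n => deg (algebraMap ℂ (L n) c) := fun c =>
    lo0 _ (Eventually.of_forall fun n => (sq.cd n).ff.deg_const c)
  let B : Subfield ℂ :=
    { carrier := {c | ∃ x, φ x = c ∧ Lo U (fun n => ht (y n)) fun n => deg (x n)}
      mul_mem' := by
        rintro _ _ ⟨x, rfl, a⟩ ⟨x', rfl, b⟩
        exact ⟨x * x', map_mul _ _ _, ult_lo a b fun n => (sq.cd n).ff.deg_mul _ _⟩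
      add_mem' := by
        rintro _ _ ⟨x, rfl, a⟩ ⟨x', rfl, b⟩
        exact ⟨x + x', map_add _ _ _, ult_lo a b fun n => (sq.cd n).ff.deg_add _ _⟩
      one_mem' := ⟨_, cst 1 (one_mem _), cs 1⟩
      zero_mem' := ⟨_, cst 0 (zero_mem _), cs 0⟩
      neg_mem' := by
        rintro _ ⟨x, rfl, a⟩
        exact ⟨-x, map_neg _ _, by simpa only [Pi.neg_apply, (sq.cd _).ff.deg_neg] using a⟩
      inv_mem' := by
        rintro _ ⟨x, rfl, a⟩
        exact ⟨_, inv x, by simpa only [(sq.cd _).ff.deg_inv] using a⟩ }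
  let E : Subfield ℂ := { φ.range with inv_mem' := by rintro _ ⟨x, rfl⟩; exact ⟨_, inv x⟩ }
  obtain ⟨F, f1, f2, f3, f4, f5⟩ := ult_chain (E := E) (B := B) (D := D') (y := Θ p₀)
    (s := k ∪ Set.range fun i => φ fun n => g n i)
    ((Set.countable_coe_iff.1 hk).union (Set.countable_range _))
    (by
      rintro c (hc | ⟨i, rfl⟩)
      · exact ⟨_, cst c hc, cs c⟩
      · exact ⟨_, rfl, fun N => (sq.lo N).mono fun n q =>
          (Nat.mul_le_mul_left N ((sq.gdeg n i).trans (Nat.le_succ _))).trans q⟩)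
    (fun c ⟨x, q, _⟩ => ⟨x, q⟩) (by rintro _ ⟨c, b, rfl⟩; exact ⟨_, (rt c b).symm⟩)
    (by
      rintro _ ⟨x, rfl, a⟩
      refine ⟨_, (der x).symm, ult_lo (ult_lo a a fun n => le_rfl) sq.lo fun n => ?_⟩
      have := ult_deg (sq.cd n) (x n)
      omega)
    (by
      rintro _ ⟨x, rfl⟩ q
      rw [der, ker] at q
      refine ⟨x, rfl, lo0 _ (q.mono fun n e => ?_)⟩
      obtain ⟨c, hc⟩ := (sq.cd n).cst _ e
      rw [hc, (sq.cd n).ff.deg_const])
  refine ⟨φ, D', p₀, l, F, ker, cst, der, l0, th, ⟨fun c hc => f1 (Or.inl hc), f3,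
    fun c hc => ?_, f4, fun i => f1 (Or.inr ⟨i, rfl⟩), tan, f5⟩, fun c hc => f2 hc⟩
  rw [← cst c hc, der, ker]
  exact Eventually.of_forall fun n => (D n).map_algebraMap c

end Pool.Agent.MP_c69980_ag.H43
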